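import Pool.Agent.J6H57.VT.Stm

/-!
# The vertex move: the moves `MoveBT` and `MoveAT` from `VertexT`
-/

set_option autoImplicit false

namespace Pool.Agent.J6H77.VT

open Pool.Agent.TH176.Nag Pool.Agent.TH880.NB Pool.Agent.J6H57.VT

/-! ### the common part -/

/-- translation of the base -/
theorem rk_shift {ι : Type} {w : ι → ℕ} {N : ℕ} {μ ν A : ℝ} (α : ℝ)
    (h : Rk w (Reg 0 (A - 1) μ ν) N) : Rk w (Reg α (α + A) μ ν) N := by
  refine h.image 1 0 0 1 ⌈α⌉ 0 (by norm_num) ?_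
  rintro ⟨x, y⟩ ⟨h1, h2, h3⟩
  simp only at h1 h2 h3
  have e1 : (α : ℝ) ≤ ⌈α⌉ := Int.le_ceil α
  have e2 : (⌈α⌉ : ℝ) < α + 1 := Int.ceil_lt_add_one α
  refine ⟨?_, ?_, ?_⟩
  · simp only; omega
  · simp only
    push_cast
    simp only [one_mul, zero_mul, add_zero, zero_add] at *
    linarith
  · simp only
    push_cast
    simp only [one_mul, zero_mul, add_zero, zero_add] at *
    linarith

theorem AS_of (hV : VertexT) {n j m : ℕ} {μ ν μ' ν' b : ℝ} (hb : 0 ≤ b) (hS : 0 < μ + ν)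
    (hm : 0 < m)
    (H : ∀ ε : ℝ, 0 < ε → ∃ K : Par, K.μ = μ ∧ K.ν = ν ∧ K.j = j ∧ K.m = m ∧ Irrational K.r ∧
      ∃ D : ℝ, 0 ≤ D ∧ ∀ B1 : ℝ, 0 ≤ B1 → ∃ α1 : ℝ, ∀ {ι : Type} (w : ι → ℕ) (N : ℕ),
        Rk w (Reg α1 (α1 + (m * B1 / (μ + ν) - D) / (1 + ε)) μ' ν') N → Rk w (K.QQ B1 0) N)
    (h : AS n (m * b / (μ + ν)) μ' ν') : AS n b μ ν := by
  intro η hη
  have hm' : (0 : ℝ) < m := by exact_mod_cast hm
  set S : ℝ := μ + ν with hSdef
  set ε : ℝ := η / (4 * b + 3 * η) with hε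
  have hden : 0 < 4 * b + 3 * η := by positivity
  have hε0 : 0 < ε := by positivity
  have hε' : ε * (4 * b + 3 * η) = η := by rw [hε]; field_simp
  obtain ⟨K, k1, k2, _, k4, hr, D, hD, hK⟩ := H ε hε0
  obtain ⟨s1, hs1⟩ := h (m * η / (4 * S)) (by positivity)
  obtain ⟨B0, hB0⟩ := hV K hr ε hε0
  obtain ⟨s2, hs2⟩ := exists_large (η := b + η) (c := max B0 0 + 1) (by positivity)
  obtain ⟨s3, hs3⟩ := exists_large (η := η / 4) (c := D * S / m + 1) (by positivity)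
  refine ⟨max s1 (max s2 s3), fun s hs α => ?_⟩
  have t1 := hs1 s ((le_max_left _ _).trans hs)
  have t2 := hs2 s (((le_max_left _ _).trans (le_max_right _ _)).trans hs)
  have t3 := hs3 s (((le_max_right _ _).trans (le_max_right _ _)).trans hs)
  have hs0 : (0 : ℝ) ≤ s := Nat.cast_nonneg s
  set B : ℝ := (b + η) * s - 1 with hB
  have hBB0 : B0 ≤ B := by
    have := le_max_left B0 0
    rw [hB]; linarith
  have hB00 : 0 ≤ B := by
    have := le_max_right B0 0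
    rw [hB]; linarith
  have hε1 : ε ≤ 1 := by
    rw [hε, div_le_one hden]; linarith
  have hB1 : 0 ≤ (1 - ε) * B := mul_nonneg (by linarith) hB00
  obtain ⟨α1, hα1⟩ := hK ((1 - ε) * B) hB1
  have key : (m * b / S + m * η / (4 * S)) * s ≤ (m * ((1 - ε) * B) / S - D) / (1 + ε) := by
    rw [le_div_iff₀ (by positivity)]
    have e1 : (m * b / S + m * η / (4 * S)) * s * (1 + ε) =
        m / S * ((1 + ε) * (b + η / 4) * s) := by field_simp
    have e2 : m * ((1 - ε) * B) / S - D = m / S * ((1 - ε) * B - D * S / m) := by field_simp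
    rw [e1, e2]
    refine mul_le_mul_of_nonneg_left ?_ (by positivity)
    have e3 : (1 - ε) * B - (1 + ε) * (b + η / 4) * s =
        (3 / 4 * η - ε * (2 * b + 5 / 4 * η)) * s - (1 - ε) := by rw [hB]; ring
    have e4 : ε * (2 * b + 5 / 4 * η) ≤ η / 2 := by
      have : ε * (2 * b + 5 / 4 * η) ≤ ε * ((4 * b + 3 * η) / 2) :=
        mul_le_mul_of_nonneg_left (by linarith) hε0.le
      linarith
    have e5 : η / 4 * s ≤ (3 / 4 * η - ε * (2 * b + 5 / 4 * η)) * s :=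
      mul_le_mul_of_nonneg_right (by linarith) hs0
    linarith
  refine rk_shift α ?_
  have hfin := hB0 B hBB0 0 (fun _ : Fin n => s) (n * (s + 1).choose 2)
    (hα1 _ _ ((t1 α1).mono (Reg_mono le_rfl (by linarith))))
  rw [k1, k2] at hfin
  exact hfin

/-- parameters with an irrational weight -/
theorem exists_par {j m : ℕ} {μ ν lo up : ℝ} (hμ : 0 ≤ μ) (hν : 0 ≤ ν) (hS : 0 < μ + ν)
    (hp : μ < j) (hq : j + ν < m) (hlo : (m : ℝ) ^ 2 ≤ lo) (h : lo < up) :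
    ∃ Z : ℝ, ∃ hZ : (m : ℝ) ^ 2 < Z, lo < Z ∧ Z < up ∧
      Irrational (Par.r ⟨μ, ν, j, m, Z, hμ, hν, hS, hp, hq, hZ⟩) := by
  set P : ℝ := (j - μ) * ((j - μ) + (m - j - ν)) with hP
  obtain ⟨r, hr, h1, h2⟩ := exists_irrational_btwn
    (show μ + (lo - P) / (μ + ν) < μ + (up - P) / (μ + ν) by
      have : (lo - P) / (μ + ν) < (up - P) / (μ + ν) :=
        (div_lt_div_iff_of_pos_right hS).2 (by linarith)
      linarith)
  have h1' : lo < (μ + ν) * (r - μ) + P := by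
    have h3 : (lo - P) / (μ + ν) < r - μ := by linarith
    rw [div_lt_iff₀ hS] at h3
    linarith
  have h2' : (μ + ν) * (r - μ) + P < up := by
    have h3 : r - μ < (up - P) / (μ + ν) := by linarith
    rw [lt_div_iff₀ hS] at h3
    linarith
  refine ⟨(μ + ν) * (r - μ) + P, by linarith, h1', h2', ?_⟩
  have e : Par.r ⟨μ, ν, j, m, (μ + ν) * (r - μ) + P, hμ, hν, hS, hp, hq, by linarith⟩ = r := by
    simp only [Par.r, Par.p, Par.q, Par.S]
    rw [← hP]
    field_simp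
    ring
  rw [e]
  exact hr

theorem PA_of {n m : ℕ} {μ ν μ' ν' : ℝ} (hS : 0 < μ + ν) (hs : μ' + ν' = m ^ 2 / (μ + ν))
    (h : PA n μ' ν') : AS n (m * (√n * √(μ + ν)) / (μ + ν)) μ' ν' := by
  unfold PA at h
  have h1 : √((m : ℝ) ^ 2 / (μ + ν)) = m / √(μ + ν) := by
    rw [Real.sqrt_div (by positivity), Real.sqrt_sq (by positivity)]
  have h2 : 0 < √(μ + ν) := Real.sqrt_pos.2 hS
  have h3 : √(μ + ν) * √(μ + ν) = μ + ν := Real.mul_self_sqrt hS.le
  have e : (m : ℝ) * (√n * √(μ + ν)) / (μ + ν) = √n * √(μ' + ν') := by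
    rw [hs, h1, div_eq_iff hS.ne']
    calc (m : ℝ) * (√n * √(μ + ν)) = √n * (m / √(μ + ν)) * (√(μ + ν) * √(μ + ν)) := by
          field_simp
      _ = √n * (m / √(μ + ν)) * (μ + ν) := by rw [h3]
  rw [e]
  exact h

/-! ### the discrete move -/

theorem moveB (hV : VertexT) : MoveBT := by
  intro n j m μ ν hμ hν hS hp hq h
  have hm0 : (0 : ℝ) < m := by
    have : (0 : ℝ) ≤ j := Nat.cast_nonneg j
    linarith
  have hm : 0 < m := by exact_mod_cast hm0
  have h' := PA_of (m := m) hS (by ring) h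
  unfold PA
  refine AS_of hV (j := j) (by positivity) hS hm ?_ h'
  intro ε hε
  set p : ℝ := j - μ with hpdef
  set q : ℝ := m - j - ν with hqdef
  have hp0 : 0 < p := by rw [hpdef]; linarith
  have hq0 : 0 < q := by rw [hqdef]; linarith
  obtain ⟨Z, hZ, hZ1, -, hr⟩ := exists_par (j := j) (m := m)
    (lo := max ((m : ℝ) ^ 2) (p * q * (1 + ε) / ε))
    (up := max ((m : ℝ) ^ 2) (p * q * (1 + ε) / ε) + 1) hμ hν hS hp hq (le_max_left _ _)
    (by linarith)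
  refine ⟨_, rfl, rfl, rfl, rfl, hr, 0, le_rfl, fun B1 hB1 => ⟨0, fun {ι} w N h2 => h2.mono ?_⟩⟩
  rintro ⟨x, y⟩ ⟨g1, g2, g3⟩
  simp only at g1 g2 g3
  have ha : (0 : ℝ) ≤ (y : ℝ) := by exact_mod_cast g1
  have hZ2 : p * q * (1 + ε) ≤ ε * Z := by
    have := (le_max_right _ _).trans hZ1.le
    rw [div_le_iff₀ hε] at this
    linarith
  have hpq : 0 < p * q := mul_pos hp0 hq0
  have hZ3 : 0 < Z - p * q := by
    have h3 : p * q * ε < ε * Z := by
      have : p * q * (1 + ε) = p * q + p * q * ε := by ring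
      linarith
    have h4 : p * q < Z := by
      by_contra hcon
      have := mul_le_mul_of_nonneg_left (not_lt.1 hcon) hε.le
      linarith
    linarith
  have hZ4 : Z ≤ (1 + ε) * (Z - p * q) := by
    have : (1 + ε) * (Z - p * q) = Z + (ε * Z - p * q * (1 + ε)) := by ring
    linarith
  have hZ5 : 0 ≤ Z - (m : ℝ) ^ 2 := by linarith
  have hZ0 : 0 ≤ Z := by linarith
  set S : ℝ := μ + ν with hSdef
  -- the offset
  have hc0 : (x : ℝ) + (μ - p * (p + q) / S) * y + 0 = x - (p * (m - S) / S - μ) * y := by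
    have : p + q = m - S := by rw [hpdef, hqdef, hSdef]; ring
    rw [this]
    ring
  set c : ℝ := x - (p * (m - S) / S - μ) * y with hc
  have c1 : 0 ≤ c := by rw [hc]; linarith
  have c2 : (1 + ε) * (S * c + m ^ 2 * y) ≤ m * B1 := by
    have h3 : c + m ^ 2 / S * y ≤ (m * B1 / S - 0) / (1 + ε) := by
      rw [hc]
      have : (x : ℝ) - (p * (m - S) / S - μ) * y + m ^ 2 / S * y =
        x + (m ^ 2 / S - (p * (m - S) / S - μ)) * y := by ring
      rw [this]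
      linarith
    rw [le_div_iff₀ (by positivity)] at h3
    have h4 := mul_le_mul_of_nonneg_left h3 hS.le
    have e1 : S * ((c + m ^ 2 / S * y) * (1 + ε)) = (1 + ε) * (S * c + m ^ 2 * y) := by
      field_simp
    have e2 : S * (m * B1 / S - 0) = m * B1 := by field_simp; ring
    rw [e1, e2] at h4
    exact h4
  have c3 : (m : ℝ) ^ 2 * y ≤ m * B1 := by
    have h3 : 0 ≤ S * c := mul_nonneg hS.le c1
    have h4 : 0 ≤ (m : ℝ) ^ 2 * y := by positivity
    have h5 : 0 ≤ ε * (S * c + m ^ 2 * y) := mul_nonneg hε.le (by linarith)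
    linarith
  show 0 ≤ (y : ℝ) ∧ 0 ≤ S * ((x : ℝ) + (μ - p * (p + q) / S) * y + 0) + p * q * y ∧
    (m : ℝ) ^ 2 * (Z - p * q) * y + S * Z * ((x : ℝ) + (μ - p * (p + q) / S) * y + 0) ≤
      B1 * (m * (Z - p * q)) ∧
    (m : ℝ) ^ 2 * (p * q) * y - S * (Z - m ^ 2) * ((x : ℝ) + (μ - p * (p + q) / S) * y + 0) ≤
      B1 * (m * (p * q))
  rw [hc0]
  refine ⟨ha, ?_, ?_, ?_⟩
  · have h3 : 0 ≤ S * c := mul_nonneg hS.le c1
    have h4 : 0 ≤ p * q * y := mul_nonneg hpq.le ha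
    linarith
  · have h3 : S * Z * c ≤ S * c * ((1 + ε) * (Z - p * q)) := by
      have := mul_le_mul_of_nonneg_left hZ4 (mul_nonneg hS.le c1)
      linarith
    have h4 : 0 ≤ ε * ((m : ℝ) ^ 2 * (Z - p * q) * y) := by
      have : 0 ≤ (m : ℝ) ^ 2 * (Z - p * q) * y :=
        mul_nonneg (mul_nonneg (by positivity) hZ3.le) ha
      exact mul_nonneg hε.le this
    have h5 := mul_le_mul_of_nonneg_right c2 hZ3.le
    linarith
  · have h3 : 0 ≤ S * (Z - m ^ 2) * c := mul_nonneg (mul_nonneg hS.le hZ5) c1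
    have h4 := mul_le_mul_of_nonneg_right c3 hpq.le
    linarith

/-! ### the free move -/

theorem moveA (hV : VertexT) : MoveAT := by
  intro n j m k μ ν μ' hμ hν hS hp hq hk hμ' hlt h
  have hm0 : (0 : ℝ) < m := by
    have : (0 : ℝ) ≤ j := Nat.cast_nonneg j
    linarith
  have hm : 0 < m := by exact_mod_cast hm0
  have h' := PA_of (m := m) hS (by ring) h
  unfold PA
  refine AS_of hV (j := j) (by positivity) hS hm ?_ h'
  intro ε hε
  set p : ℝ := j - μ with hpdef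
  set q : ℝ := m - j - ν with hqdef
  have hp0 : 0 < p := by rw [hpdef]; linarith
  have hq0 : 0 < q := by rw [hqdef]; linarith
  have hpq : 0 < p * q := mul_pos hp0 hq0
  have hpm : p ≤ m := by
    have : (0 : ℝ) ≤ ν := hν
    rw [hpdef]; linarith
  have hqm : q ≤ m := by
    have : (0 : ℝ) ≤ j := Nat.cast_nonneg j
    rw [hqdef]; linarith
  have hpqm : p * q ≤ (m : ℝ) ^ 2 := by
    rw [sq]; exact mul_le_mul hpm hqm hq0.le hm0.le
  have hSμ : 0 < (μ + ν) * μ' := mul_pos hS hμ'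
  -- `lo = m² p q / (S μ')`
  have hlo : (m : ℝ) ^ 2 ≤ (m : ℝ) ^ 2 * (p * q) / ((μ + ν) * μ') := by
    rw [le_div_iff₀ hSμ]
    rw [lt_div_iff₀ hS] at hlt
    exact mul_le_mul_of_nonneg_left (by linarith) (by positivity)
  have hup : (m : ℝ) ^ 2 * (p * q) / ((μ + ν) * μ') <
      (m : ℝ) ^ 2 * (p * q) / ((μ + ν) * μ') * (1 + ε) := by
    have h0 : 0 < (m : ℝ) ^ 2 * (p * q) / ((μ + ν) * μ') := by positivity
    have := mul_pos h0 hε
    linarith
  obtain ⟨Z, hZ, hZ1, hZ2, hr⟩ := exists_par (j := j) (m := m) hμ hν hS hp hq hlo hup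
  set S : ℝ := μ + ν with hSdef
  have hZ0 : 0 < Z := lt_of_le_of_lt (by positivity) hZ
  have hZpq : 0 < Z - p * q := by linarith
  have hSZ : 0 < S * Z := mul_pos hS hZ0
  -- the slope `ρ = m² p q / (S Z)`
  set ρ : ℝ := (m : ℝ) ^ 2 * (p * q) / (S * Z) with hρ
  have hρ0 : 0 < ρ := by positivity
  have ρ1 : ρ ≤ μ' := by
    rw [hρ, div_le_iff₀ hSZ]
    rw [div_lt_iff₀ hSμ] at hZ1
    linarith
  have ρ2 : μ' ≤ (1 + ε) * ρ := by
    have h3 : Z * (S * μ') < (m : ℝ) ^ 2 * (p * q) * (1 + ε) := by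
      have : (m : ℝ) ^ 2 * (p * q) / (S * μ') * (1 + ε) =
        (m : ℝ) ^ 2 * (p * q) * (1 + ε) / (S * μ') := by ring
      rw [this, lt_div_iff₀ hSμ] at hZ2
      exact hZ2
    have h4 : (1 + ε) * ρ = (m : ℝ) ^ 2 * (p * q) * (1 + ε) / (S * Z) := by rw [hρ]; ring
    rw [h4, le_div_iff₀ hSZ]
    linarith
  have ρ3 : ρ * (S * Z) = (m : ℝ) ^ 2 * (p * q) := by rw [hρ]; field_simp
  have ρ4 : ρ ≤ (m : ℝ) ^ 2 / S := by
    rw [hρ, div_le_div_iff₀ hSZ hS]
    have : (m : ℝ) ^ 2 * (p * q) * S ≤ (m : ℝ) ^ 2 * Z * S := by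
      refine mul_le_mul_of_nonneg_right (mul_le_mul_of_nonneg_left (by linarith) (by positivity))
        hS.le
    linarith
  refine ⟨_, rfl, rfl, rfl, rfl, hr, (m : ℝ) ^ 2 / S, by positivity, fun B1 hB1 =>
    ⟨-(ρ * (B1 / m - 1)), fun {ι} w N h2 => ?_⟩⟩
  set d : ℝ := B1 / m - 1 with hd
  have hmB : m * B1 = (m : ℝ) ^ 2 * (d + 1) := by rw [hd]; field_simp; ring
  refine Rk_flat 1 (-k) 1 0 (by norm_num) ?_ h2
  rintro ⟨c, k'⟩ ⟨g1, g2, g3⟩
  simp only at g1 g2 g3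
  have hk' : (0 : ℝ) ≤ k' := by exact_mod_cast g1
  -- the base
  set bb : ℝ := (m * B1 / S - (m : ℝ) ^ 2 / S) / (1 + ε) with hbb
  have hbb1 : bb * (1 + ε) = (m : ℝ) ^ 2 / S * d := by
    rw [hbb, hmB]; field_simp; ring
  have hbb2 : (m : ℝ) ^ 2 / S * k' ≤ bb := by
    have : (m : ℝ) ^ 2 / S * k' = μ' * k' + ((m : ℝ) ^ 2 / S - μ') * k' := by ring
    linarith
  have hM : 0 < (m : ℝ) ^ 2 / S := by positivity
  have hbb0 : 0 ≤ bb := le_trans (by positivity) hbb2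
  have hkd : (k' : ℝ) ≤ d := by
    have h3 : (m : ℝ) ^ 2 / S * k' ≤ (m : ℝ) ^ 2 / S * d := by
      have : 0 ≤ bb * ε := mul_nonneg hbb0 hε.le
      linarith
    exact le_of_mul_le_mul_left h3 hM
  have hd0 : 0 ≤ d := hk'.trans hkd
  -- the left side
  have L1 : -(ρ * (d - k')) ≤ c := by
    have : ρ * k' ≤ μ' * k' := mul_le_mul_of_nonneg_right ρ1 hk'
    linarith
  have L2 : -((m : ℝ) ^ 2 * (p * q) * (d - k')) ≤ S * Z * c := by
    have := mul_le_mul_of_nonneg_left L1 hSZ.le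
    have e : S * Z * -(ρ * (d - k')) = -((m : ℝ) ^ 2 * (p * q) * (d - k')) := by
      rw [← ρ3]; ring
    rw [e] at this
    exact this
  -- the right side
  have R1 : c ≤ ((m : ℝ) ^ 2 / S - ρ) * (d - k') := by
    have h3 : (μ' - ρ) * k' ≤ ε * bb := by
      have h4 : (μ' - ρ) * k' ≤ (ε * ρ) * k' :=
        mul_le_mul_of_nonneg_right (by linarith) hk'
      have h5 : ε * (ρ * k') ≤ ε * ((m : ℝ) ^ 2 / S * k') :=
        mul_le_mul_of_nonneg_left (mul_le_mul_of_nonneg_right ρ4 hk') hε.le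
      have h6 : ε * ((m : ℝ) ^ 2 / S * k') ≤ ε * bb := mul_le_mul_of_nonneg_left hbb2 hε.le
      linarith
    have e : ((m : ℝ) ^ 2 / S - ρ) * (d - k') =
        (m : ℝ) ^ 2 / S * d - ρ * d - ((m : ℝ) ^ 2 / S) * k' + ρ * k' := by ring
    rw [e]
    linarith
  have R2 : S * Z * c ≤ (m : ℝ) ^ 2 * (Z - p * q) * (d - k') := by
    have := mul_le_mul_of_nonneg_left R1 hSZ.le
    have e : S * Z * (((m : ℝ) ^ 2 / S - ρ) * (d - k')) =
        ((m : ℝ) ^ 2 * Z - ρ * (S * Z)) * (d - k') := by field_simp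
    rw [e, ρ3] at this
    linarith
  have hMp : 0 ≤ (m : ℝ) ^ 2 * (p * q) := by positivity
  have hMz : 0 ≤ (m : ℝ) ^ 2 * (Z - p * q) := mul_nonneg (by positivity) hZpq.le
  have hZm : 0 ≤ Z - (m : ℝ) ^ 2 := by linarith
  refine ⟨g1, (c + k * ⌈max 0 (-(S * c) / (p * q))⌉, ⌈max 0 (-(S * c) / (p * q))⌉), by ring, ?_⟩
  intro i hi
  set L : ℝ := max 0 (-(S * c) / (p * q)) with hL
  have a1 : L ≤ ⌈L⌉ := Int.le_ceil L
  have a2 : (⌈L⌉ : ℝ) < L + 1 := Int.ceil_lt_add_one L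
  have hi' : ((i : ℕ) : ℝ) ≤ k' := by exact_mod_cast hi
  have hi0 : (0 : ℝ) ≤ (i : ℝ) := Nat.cast_nonneg i
  set a : ℝ := ((⌈L⌉ + 1 * (i : ℤ) : ℤ) : ℝ) with ha
  have ha' : a = (⌈L⌉ : ℝ) + i := by rw [ha]; push_cast; ring
  have hc0 : ((c + k * ⌈L⌉ - (-k) * (i : ℤ) : ℤ) : ℝ) + (μ - p * (p + q) / S) * a + 0 = c := by
    have e1 : p + q = m - S := by rw [hpdef, hqdef, hSdef]; ring
    have e2 : μ - p * (p + q) / S = -k := by rw [e1, ← hk]; ring
    rw [e2, ha']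
    push_cast
    ring
  have hL0 : 0 ≤ L := le_max_left _ _
  show 0 ≤ a ∧ 0 ≤ S * (((c + k * ⌈L⌉ - (-k) * (i : ℤ) : ℤ) : ℝ) +
      (μ - p * (p + q) / S) * a + 0) + p * q * a ∧
    (m : ℝ) ^ 2 * (Z - p * q) * a + S * Z * (((c + k * ⌈L⌉ - (-k) * (i : ℤ) : ℤ) : ℝ) +
      (μ - p * (p + q) / S) * a + 0) ≤ B1 * (m * (Z - p * q)) ∧
    (m : ℝ) ^ 2 * (p * q) * a - S * (Z - m ^ 2) * (((c + k * ⌈L⌉ - (-k) * (i : ℤ) : ℤ) : ℝ) +
      (μ - p * (p + q) / S) * a + 0) ≤ B1 * (m * (p * q))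
  rw [hc0]
  have E3 : B1 * (m * (Z - p * q)) = (m : ℝ) ^ 2 * (Z - p * q) * (d + 1) := by
    rw [show B1 * (m * (Z - p * q)) = m * B1 * (Z - p * q) by ring, hmB]; ring
  have E4 : B1 * (m * (p * q)) = (m : ℝ) ^ 2 * (p * q) * (d + 1) := by
    rw [show B1 * (m * (p * q)) = m * B1 * (p * q) by ring, hmB]; ring
  rw [E3, E4]
  have ha0 : 0 ≤ a := by rw [ha']; linarith
  rcases le_or_gt 0 (c : ℝ) with hc | hc
  · have hLz : L = 0 := by
      rw [hL]
      refine max_eq_left ?_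
      rw [div_nonpos_iff]
      right
      exact ⟨by have := mul_nonneg hS.le hc; linarith, hpq.le⟩
    have a3 : a ≤ k' + 1 := by rw [ha']; linarith
    refine ⟨ha0, ?_, ?_, ?_⟩
    · have h3 := mul_nonneg hS.le hc
      have h4 := mul_nonneg hpq.le ha0
      linarith
    · have h3 := mul_le_mul_of_nonneg_left a3 hMz
      linarith
    · have h3 : (m : ℝ) ^ 2 * (p * q) * a ≤ (m : ℝ) ^ 2 * (p * q) * (d + 1) :=
        mul_le_mul_of_nonneg_left (by linarith) hMp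
      have h4 : 0 ≤ S * (Z - m ^ 2) * c := mul_nonneg (mul_nonneg hS.le hZm) hc
      linarith
  · have hLz : p * q * L = -(S * c) := by
      rw [hL, max_eq_right]
      · field_simp
      · have := mul_neg_of_pos_of_neg hS hc
        exact div_nonneg (by linarith) hpq.le
    have a3 : a ≤ L + 1 + k' := by rw [ha']; linarith
    have a4 : L ≤ d - k' := by
      have h3 : p * q * (Z * L) ≤ p * q * ((m : ℝ) ^ 2 * (d - k')) := by
        have : p * q * (Z * L) = -(S * Z * c) := by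
          rw [show p * q * (Z * L) = Z * (p * q * L) by ring, hLz]; ring
        rw [this]
        linarith
      have h4 : Z * L ≤ (m : ℝ) ^ 2 * (d - k') := le_of_mul_le_mul_left h3 hpq
      have h5 : (m : ℝ) ^ 2 * (d - k') ≤ Z * (d - k') :=
        mul_le_mul_of_nonneg_right hZ.le (by linarith)
      exact le_of_mul_le_mul_left (h4.trans h5) hZ0
    refine ⟨ha0, ?_, ?_, ?_⟩
    · have h3 : p * q * L ≤ p * q * a := mul_le_mul_of_nonneg_left (by rw [ha']; linarith) hpq.le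
      linarith
    · have h3 : (m : ℝ) ^ 2 * (Z - p * q) * a ≤ (m : ℝ) ^ 2 * (Z - p * q) * (d + 1) :=
        mul_le_mul_of_nonneg_left (by linarith) hMz
      have h4 : S * Z * c ≤ 0 := (mul_neg_of_pos_of_neg hSZ hc).le
      linarith
    · have h3 := mul_le_mul_of_nonneg_left a3 hMp
      have h4 : (m : ℝ) ^ 2 * (p * q) * (L + 1 + k') =
          (m : ℝ) ^ 2 * (p * q * L) + (m : ℝ) ^ 2 * (p * q) * (1 + k') := by ring
      rw [h4, hLz] at h3
      linarith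

end Pool.Agent.J6H77.VT
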