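import Pool.Agent.J6H57.VT.Stm

/-!
# The vertex move: `VertexT` from `FillT` and `TransT`
-/

set_option autoImplicit false

namespace Pool.Agent.J6H77.VT

open Pool.Agent.TH176.Nag Pool.Agent.TH880.NB Pool.Agent.J6H57.VT

theorem vertex (hF : FillT) (hT : TransT) : VertexT := by
  intro K hK η hη
  obtain ⟨B0, hB0⟩ := hF K hK η hη
  refine ⟨B0, fun B hB t {ι} w N h => ?_⟩
  obtain ⟨i, k, hik⟩ := hB0 B hB t
  refine hT K B ((fun z : ℤ × ℤ => (z.1 + i, z.2 + k)) '' K.QQ ((1 - η) * B) t) ?_ w N ?_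
  · rintro F _ _ ⟨z, hz, rfl⟩
    exact hik F z hz
  · refine h.image 1 0 0 1 i k (by norm_num) fun n hn => ⟨n, hn, ?_⟩
    ext <;> simp

end Pool.Agent.J6H77.VT
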